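import Pool.Agent.U753.MG.Stm

/-!
# Project MG, package PT: pure states, and telescoping along the lexicographic order
-/

set_option autoImplicit false

open scoped BigOperators Matrix ComplexOrder

noncomputable section

namespace Pool.Agent.U458.MG

open Pool.Agent.TH235.PP (BoxOp TorOp Site term ham sh normSq ip)
open Pool.Agent.U753.MK Pool.Agent.U753.MG

/-- the entropy of a projection is zero -/
lemma vnE_idem {S : Type} [Fintype S] [DecidableEq S] (ρ : Matrix S S ℂ) (h : ρ.IsHermitian)
    (hp : ρ * ρ = ρ) : vnE ρ = 0 := by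
  unfold vnE
  rw [dif_pos h]
  refine Finset.sum_eq_zero fun i _ => ?_
  have e1 := h.mulVec_eigenvectorBasis i
  have e2 : ρ *ᵥ (ρ *ᵥ (h.eigenvectorBasis i).ofLp) = ρ *ᵥ (h.eigenvectorBasis i).ofLp := by
    rw [Matrix.mulVec_mulVec, hp]
  rw [e1, Matrix.mulVec_smul, e1, smul_smul] at e2
  have hne : (h.eigenvectorBasis i).ofLp ≠ 0 := by
    intro h0
    have h1 : h.eigenvectorBasis i = 0 := by
      apply (WithLp.ofLp_injective 2)
      rw [h0]
      rfl
    have h2 := h.eigenvectorBasis.orthonormal.1 i
    rw [h1, norm_zero] at h2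
    exact zero_ne_one h2
  have e3 : h.eigenvalues i * h.eigenvalues i = h.eigenvalues i := by
    by_contra hc
    apply hne
    have e4 : (h.eigenvalues i * h.eigenvalues i - h.eigenvalues i) •
        (h.eigenvectorBasis i).ofLp = 0 := by
      rw [sub_smul, e2, sub_self]
    exact (smul_eq_zero.1 e4).resolve_left (sub_ne_zero.2 hc)
  have e5 : h.eigenvalues i = 0 ∨ h.eigenvalues i = 1 := by
    rcases eq_or_ne (h.eigenvalues i) 0 with h0 | h0
    · exact Or.inl h0
    · exact Or.inr (mul_left_cancel₀ h0 (by rw [e3, mul_one]))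
  rcases e5 with h0 | h0 <;> rw [h0] <;> simp

lemma mul_conj_eq (z : ℂ) : z * star z = ((‖z‖ ^ 2 : ℝ) : ℂ) := by
  rw [Complex.star_def, Complex.mul_conj, Complex.normSq_eq_norm_sq]

lemma sum_conj {S : Type} [Fintype S] (Ψ : S → ℂ) :
    ∑ s, Ψ s * star (Ψ s) = ((normSq Ψ : ℝ) : ℂ) := by
  unfold normSq
  rw [Complex.ofReal_sum]
  exact Finset.sum_congr rfl fun s _ => mul_conj_eq _

lemma dm_herm {S : Type} (Ψ : S → ℂ) : (dm Ψ).IsHermitian := by
  ext s t
  simp [dm, Matrix.vecMulVec_apply, Matrix.conjTranspose_apply, mul_comm]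

lemma dm_idem {S : Type} [Fintype S] (Ψ : S → ℂ) (h : normSq Ψ = 1) : dm Ψ * dm Ψ = dm Ψ := by
  ext s t
  simp only [dm, Matrix.mul_apply, Matrix.vecMulVec_apply, Pi.star_apply]
  have e : ∀ x, Ψ s * star (Ψ x) * (Ψ x * star (Ψ t)) =
      (Ψ x * star (Ψ x)) * (Ψ s * star (Ψ t)) := fun x => by ring
  rw [Finset.sum_congr rfl fun x _ => e x, ← Finset.sum_mul, sum_conj, h]
  simp

theorem t_pure : StmPure := by
  intro V _ _ d Ψ h
  refine ⟨Matrix.posSemidef_vecMulVec_self_star Ψ, ?_, ?_, ?_, ?_⟩
  · have e : (dm Ψ).trace = ∑ s, Ψ s * star (Ψ s) := rfl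
    rw [e, sum_conj, h]
    simp
  · -- the whole system
    unfold ent
    let w0 : {v : V // v ∉ (Finset.univ : Finset V)} → Fin d :=
      fun v => absurd (Finset.mem_univ v.1) v.2
    let Φ : ({v : V // v ∈ (Finset.univ : Finset V)} → Fin d) → ℂ := fun s => Ψ (glu _ s w0)
    have e : ptr Finset.univ (dm Ψ) = dm Φ := by
      ext s t
      have hu : ∀ w : {v : V // v ∉ (Finset.univ : Finset V)} → Fin d, w = w0 := by
        intro w
        funext v
        exact absurd (Finset.mem_univ v.1) v.2
      show ∑ w : {v : V // v ∉ (Finset.univ : Finset V)} → Fin d, _ = _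
      rw [Finset.sum_eq_single w0 (fun w _ hw => absurd (hu w) hw)
        (fun hw => absurd (Finset.mem_univ _) hw)]
      rfl
    have hΦ : normSq Φ = 1 := by
      rw [← h]
      unfold normSq
      let eq : ({v : V // v ∈ (Finset.univ : Finset V)} → Fin d) ≃ (V → Fin d) :=
        Equiv.arrowCongr (Equiv.subtypeUnivEquiv (fun v => Finset.mem_univ v)) (Equiv.refl _)
      refine Fintype.sum_equiv eq _ _ fun s => ?_
      have : glu Finset.univ s w0 = eq s := by
        funext v
        simp only [glu, dif_pos (Finset.mem_univ v)]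
        rfl
      show ‖Ψ (glu _ s w0)‖ ^ 2 = _
      rw [this]
    rw [e]
    exact vnE_idem _ (dm_herm Φ) (dm_idem Φ hΦ)
  · -- the empty region
    unfold ent
    have e : ptr ∅ (dm Ψ) = 1 := by
      ext s t
      have hst : s = t := by
        funext v
        exact absurd v.2 (Finset.notMem_empty _)
      rw [hst, Matrix.one_apply_eq]
      show ∑ w : {v : V // v ∉ (∅ : Finset V)} → Fin d, Ψ (glu ∅ t w) * star (Ψ (glu ∅ t w)) = 1
      let eq : ({v : V // v ∉ (∅ : Finset V)} → Fin d) ≃ (V → Fin d) :=
        Equiv.arrowCongr (Equiv.subtypeUnivEquiv (fun v => Finset.notMem_empty v)) (Equiv.refl _)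
      have e1 : ∑ w : {v : V // v ∉ (∅ : Finset V)} → Fin d,
          Ψ (glu ∅ t w) * star (Ψ (glu ∅ t w)) = ∑ s, Ψ s * star (Ψ s) := by
        refine Fintype.sum_equiv eq _ _ fun w => ?_
        have : glu ∅ t w = eq w := by
          funext v
          simp only [glu, dif_neg (Finset.notMem_empty v)]
          rfl
        rw [this]
      rw [e1, sum_conj, h]
      simp
    rw [e]
    exact vnE_idem _ Matrix.isHermitian_one (one_mul 1)
  · intro X
    unfold ip
    simp only [Matrix.trace, Matrix.diag_apply, Matrix.mul_apply, dm, Matrix.vecMulVec_apply,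
      Matrix.mulVec, dotProduct, Pi.star_apply]
    rw [Finset.sum_comm]
    refine Finset.sum_congr rfl fun j _ => ?_
    rw [Finset.mul_sum]
    refine Finset.sum_congr rfl fun i _ => ?_
    rw [Complex.star_def]
    ring

/-- position in the lexicographic order -/
def pos {L : ℕ} (v : Site L) : ℕ := v.1.val * L + v.2.val

lemma pos_lt {L : ℕ} [NeZero L] (v : Site L) : pos v < L * L := by
  have h1 := ZMod.val_lt v.1
  have h2 := ZMod.val_lt v.2
  unfold pos
  calc v.1.val * L + v.2.val < v.1.val * L + L := by omega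
    _ = (v.1.val + 1) * L := by ring
    _ ≤ L * L := Nat.mul_le_mul_right _ h1

lemma pos_lt_iff {L : ℕ} [NeZero L] (w v : Site L) :
    pos w < pos v ↔ w.1.val < v.1.val ∨ (w.1.val = v.1.val ∧ w.2.val < v.2.val) := by
  have h1 := ZMod.val_lt w.2
  have h2 := ZMod.val_lt v.2
  unfold pos
  rcases lt_trichotomy w.1.val v.1.val with h | h | h
  · have h3 : (w.1.val + 1) * L ≤ v.1.val * L := Nat.mul_le_mul_right _ h
    have h4 : (w.1.val + 1) * L = w.1.val * L + L := by ring
    constructor
    · intro _
      exact Or.inl h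
    · intro _
      omega
  · rw [h]
    constructor
    · intro h3
      exact Or.inr ⟨rfl, by omega⟩
    · rintro (h3 | ⟨_, h3⟩)
      · exact absurd h3 (lt_irrefl _)
      · omega
  · have h3 : (v.1.val + 1) * L ≤ w.1.val * L := Nat.mul_le_mul_right _ h
    have h4 : (v.1.val + 1) * L = v.1.val * L + L := by ring
    constructor
    · intro h5
      omega
    · rintro (h5 | ⟨h5, _⟩) <;> omega

lemma pos_inj {L : ℕ} [NeZero L] {w v : Site L} (h : pos w = pos v) : w = v := by
  have h1 : ¬ pos w < pos v := by omega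
  have h2 : ¬ pos v < pos w := by omega
  rw [pos_lt_iff] at h1 h2
  have h3 : w.1.val = v.1.val := by omega
  have h4 : w.2.val = v.2.val := by omega
  exact Prod.ext (ZMod.val_injective _ h3) (ZMod.val_injective _ h4)

theorem t_tele : StmTele := by
  intro L _ f
  let S : ℕ → Finset (Site L) := fun k => Finset.univ.filter fun w => pos w < k
  have h1 : ∀ v : Site L, past v = S (pos v) := by
    intro v
    ext w
    simp only [past, S, Finset.mem_filter, Finset.mem_univ, true_and]
    exact (pos_lt_iff w v).symm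
  have h2 : ∀ v : Site L, insert v (past v) = S (pos v + 1) := by
    intro v
    rw [h1]
    ext w
    simp only [S, Finset.mem_insert, Finset.mem_filter, Finset.mem_univ, true_and]
    constructor
    · rintro (rfl | h)
      · omega
      · omega
    · intro h
      rcases Nat.lt_succ_iff_lt_or_eq.1 h with h | h
      · exact Or.inr h
      · exact Or.inl (pos_inj h)
  have himg : (Finset.univ : Finset (Site L)).image pos = Finset.range (L * L) := by
    apply Finset.eq_of_subset_of_card_le
    · intro k hk
      obtain ⟨v, _, rfl⟩ := Finset.mem_image.1 hk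
      exact Finset.mem_range.2 (pos_lt v)
    · rw [Finset.card_image_of_injective _ (fun a b h => pos_inj h), Finset.card_range,
        Finset.card_univ, Fintype.card_prod, ZMod.card]
  calc ∑ v : Site L, (f (insert v (past v)) - f (past v)) =
        ∑ v : Site L, (f (S (pos v + 1)) - f (S (pos v))) := by
        refine Finset.sum_congr rfl fun v _ => ?_
        rw [h2 v, h1 v]
    _ = ∑ k ∈ (Finset.univ : Finset (Site L)).image pos, (f (S (k + 1)) - f (S k)) := by
        rw [Finset.sum_image (fun a _ b _ h => pos_inj h)]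
    _ = ∑ k ∈ Finset.range (L * L), (f (S (k + 1)) - f (S k)) := by rw [himg]
    _ = f (S (L * L)) - f (S 0) := Finset.sum_range_sub (fun k => f (S k)) (L * L)
    _ = f Finset.univ - f ∅ := by
        have e1 : S (L * L) = Finset.univ := by
          ext w
          simp only [S, Finset.mem_filter, Finset.mem_univ, true_and, iff_true]
          exact pos_lt w
        have e2 : S 0 = ∅ := by
          ext w
          simp [S]
        rw [e1, e2]

end Pool.Agent.U458.MG
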